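import Mathlib

/-!
# Matrices over the `ℓ`-adic numbers which are congruent to one: powers and commutators
-/

set_option autoImplicit false

namespace Pool.Agent.X259.Q

open Matrix Filter Topology

variable {ℓ : ℕ} [Fact ℓ.Prime] {ι : Type} [Fintype ι] [DecidableEq ι]

/-- A bound for the entries. -/
def Bd (A : Matrix ι ι ℚ_[ℓ]) (r : ℝ) : Prop := ∀ i j, ‖A i j‖ ≤ r

/-- The matrix is congruent to one modulo `ℓ ^ 2`. -/
def Near (T : Matrix ι ι ℚ_[ℓ]) : Prop := Bd (T - 1) ((ℓ : ℝ) ^ (-2 : ℤ))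

omit [Fintype ι] [DecidableEq ι] in
lemma Bd.mono {A : Matrix ι ι ℚ_[ℓ]} {a b : ℝ} (h : Bd A a) (hab : a ≤ b) : Bd A b :=
  fun i j => (h i j).trans hab

omit [DecidableEq ι] in
lemma Bd.mul {A B : Matrix ι ι ℚ_[ℓ]} {a b : ℝ} (hA : Bd A a) (hB : Bd B b) (ha : 0 ≤ a)
    (hb : 0 ≤ b) : Bd (A * B) (a * b) := by
  intro i j
  rw [Matrix.mul_apply]
  refine IsUltrametricDist.norm_sum_le_of_forall_le_of_nonneg (mul_nonneg ha hb) fun k _ => ?_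
  rw [norm_mul]
  exact mul_le_mul (hA i k) (hB k j) (norm_nonneg _) ha

omit [Fintype ι] [DecidableEq ι] in
lemma Bd.add {A B : Matrix ι ι ℚ_[ℓ]} {r : ℝ} (hA : Bd A r) (hB : Bd B r) : Bd (A + B) r := by
  intro i j
  rw [Matrix.add_apply]
  exact (IsUltrametricDist.norm_add_le_max _ _).trans (max_le (hA i j) (hB i j))

omit [Fintype ι] [DecidableEq ι] in
lemma Bd.smul {A : Matrix ι ι ℚ_[ℓ]} {r : ℝ} (hA : Bd A r) (c : ℚ_[ℓ]) : Bd (c • A) (‖c‖ * r) := by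
  intro i j
  rw [Matrix.smul_apply, smul_eq_mul, norm_mul]
  exact mul_le_mul_of_nonneg_left (hA i j) (norm_nonneg _)

omit [Fintype ι] [DecidableEq ι] in
lemma Bd.neg {A : Matrix ι ι ℚ_[ℓ]} {r : ℝ} (hA : Bd A r) : Bd (-A) r := by
  intro i j
  rw [Matrix.neg_apply, norm_neg]
  exact hA i j

omit [Fintype ι] in
lemma Bd.one : Bd (1 : Matrix ι ι ℚ_[ℓ]) 1 := by
  intro i j
  by_cases h : i = j
  · subst h
    rw [Matrix.one_apply_eq, norm_one]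
  · rw [Matrix.one_apply_ne h, norm_zero]
    exact zero_le_one

omit [Fintype ι] [DecidableEq ι] in
lemma Bd.zero {r : ℝ} (hr : 0 ≤ r) : Bd (0 : Matrix ι ι ℚ_[ℓ]) r := by
  intro i j
  rw [Matrix.zero_apply, norm_zero]
  exact hr

lemma l_pos : (0 : ℝ) < ℓ := by exact_mod_cast (Fact.out : ℓ.Prime).pos

lemma one_lt_l : (1 : ℝ) < ℓ := by exact_mod_cast (Fact.out : ℓ.Prime).one_lt

/-- Powers of a matrix congruent to one modulo `r ≤ 1`. -/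
lemma Bd.pow_sub_one {T : Matrix ι ι ℚ_[ℓ]} {r : ℝ} (h : Bd (T - 1) r) (h0 : 0 ≤ r) (h1 : r ≤ 1)
    (n : ℕ) : Bd (T ^ n - 1) r ∧ Bd (T ^ n) 1 := by
  have hT : Bd T 1 := by
    have h2 : T = (T - 1) + 1 := by abel
    rw [h2]
    exact (h.mono h1).add Bd.one
  induction n with
  | zero =>
    rw [pow_zero, sub_self]
    exact ⟨Bd.zero h0, Bd.one⟩
  | succ n ih =>
    have h2 : T ^ (n + 1) - 1 = (T ^ n - 1) * T + (T - 1) := by
      rw [pow_succ, sub_mul, one_mul]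
      abel
    constructor
    · rw [h2]
      refine Bd.add ?_ h
      have := ih.1.mul hT h0 zero_le_one
      rwa [mul_one] at this
    · rw [pow_succ]
      have := ih.2.mul hT zero_le_one zero_le_one
      rwa [mul_one] at this

/-- The `ℓ`-th power of a matrix congruent to one modulo `ℓ ^ e`, `e ≥ 1`. -/
lemma pow_l {T : Matrix ι ι ℚ_[ℓ]} {e : ℤ} (he : 1 ≤ e) (h : Bd (T - 1) ((ℓ : ℝ) ^ (-e))) :
    Bd (T ^ ℓ - 1) ((ℓ : ℝ) ^ (-e - 1)) := by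
  have hl := one_lt_l (ℓ := ℓ)
  have hl0 := l_pos (ℓ := ℓ)
  have h0 : (0 : ℝ) ≤ (ℓ : ℝ) ^ (-e) := zpow_nonneg hl0.le _
  have h1 : (ℓ : ℝ) ^ (-e) ≤ (ℓ : ℝ) ^ (-1 : ℤ) := zpow_le_zpow_right₀ hl.le (by omega)
  have h1' : (ℓ : ℝ) ^ (-1 : ℤ) ≤ 1 := by
    rw [_root_.zpow_neg_one]
    exact inv_le_one_of_one_le₀ hl.le
  have hgeom : T ^ ℓ - 1 = (∑ i ∈ Finset.range ℓ, T ^ i) * (T - 1) := (geom_sum_mul T ℓ).symm
  have hsum : ∑ i ∈ Finset.range ℓ, T ^ i = (ℓ : ℚ_[ℓ]) • (1 : Matrix ι ι ℚ_[ℓ]) +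
      ∑ i ∈ Finset.range ℓ, (T ^ i - 1) := by
    rw [Finset.sum_sub_distrib, Finset.sum_const, Finset.card_range, ← Nat.cast_smul_eq_nsmul ℚ_[ℓ]]
    abel
  have hs : Bd (∑ i ∈ Finset.range ℓ, T ^ i) ((ℓ : ℝ) ^ (-1 : ℤ)) := by
    rw [hsum]
    refine Bd.add ?_ ?_
    · have := (Bd.one (ℓ := ℓ) (ι := ι)).smul (ℓ : ℚ_[ℓ])
      rw [Padic.norm_p, mul_one] at this
      rw [_root_.zpow_neg_one]
      exact this
    · intro i j
      rw [Matrix.sum_apply]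
      refine IsUltrametricDist.norm_sum_le_of_forall_le_of_nonneg (zpow_nonneg hl0.le _)
        fun k _ => ?_
      exact ((h.pow_sub_one h0 (h1.trans h1') k).1 i j).trans h1
  rw [hgeom]
  have := hs.mul h (zpow_nonneg hl0.le _) h0
  rw [← zpow_add₀ hl0.ne'] at this
  have e1 : (-1 : ℤ) + -e = -e - 1 := by ring
  rwa [e1] at this

/-- Iterated `ℓ`-th powers. -/
lemma pow_l_pow {T : Matrix ι ι ℚ_[ℓ]} (h : Near T) (k : ℕ) :
    Bd (T ^ (ℓ ^ k) - 1) ((ℓ : ℝ) ^ (-2 - (k : ℤ))) := by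
  induction k with
  | zero =>
    rw [pow_zero, pow_one]
    simpa [Near] using h
  | succ k ih =>
    have e1 : T ^ (ℓ ^ (k + 1)) = (T ^ (ℓ ^ k)) ^ ℓ := by rw [← pow_mul, pow_succ]
    have e2 : (-2 - (k : ℤ)) = -(2 + (k : ℤ)) := by ring
    rw [e2] at ih
    have := pow_l (by omega) ih
    rw [e1]
    have e3 : -2 - ((k + 1 : ℕ) : ℤ) = -(2 + (k : ℤ)) - 1 := by push_cast; ring
    rw [e3]
    exact this

lemma near_pow_l {T : Matrix ι ι ℚ_[ℓ]} (h : Near T) (k : ℕ) : Near (T ^ (ℓ ^ k)) :=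
  (pow_l_pow h k).mono (zpow_le_zpow_right₀ (one_lt_l (ℓ := ℓ)).le (by omega))

/-- The commutator with the `ℓ`-th power. -/
lemma comm_l {T : Matrix ι ι ℚ_[ℓ]} (h : Near T) (P : Matrix ι ι ℚ_[ℓ]) {r : ℝ} 
    (hr : Bd (T ^ ℓ * P - P * T ^ ℓ) ((ℓ : ℝ)⁻¹ * r)) : Bd (T * P - P * T) r := by
  have hl := one_lt_l (ℓ := ℓ)
  have hl0 := l_pos (ℓ := ℓ)
  set D := T * P - P * T with hD
  rcases isEmpty_or_nonempty ι with hι | hι
  · intro i
    exact hι.elim i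
  obtain ⟨⟨i0, j0⟩, hmax⟩ := Finite.exists_max (fun q : ι × ι => ‖D q.1 q.2‖)
  set δ : ℝ := ‖D i0 j0‖ with hδ
  have hδ0 : 0 ≤ δ := norm_nonneg _
  have hDd : Bd D δ := fun i j => hmax (i, j)
  have h2 : (0 : ℝ) ≤ (ℓ : ℝ) ^ (-2 : ℤ) := zpow_nonneg hl0.le _
  have h21 : (ℓ : ℝ) ^ (-2 : ℤ) < (ℓ : ℝ) ^ (-1 : ℤ) := zpow_lt_zpow_right₀ hl (by norm_num)
  have h1 : (ℓ : ℝ) ^ (-2 : ℤ) ≤ 1 := by
    have := zpow_le_zpow_right₀ hl.le (show (-2 : ℤ) ≤ 0 by norm_num)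
    rwa [zpow_zero] at this
  have hT : ∀ n, Bd (T ^ n - 1) ((ℓ : ℝ) ^ (-2 : ℤ)) ∧ Bd (T ^ n) 1 :=
    fun n => Bd.pow_sub_one h h2 h1 n
  have key : ∀ n : ℕ, Bd ((T ^ n * P - P * T ^ n) - (n : ℚ_[ℓ]) • D) ((ℓ : ℝ) ^ (-2 : ℤ) * δ) := by
    intro n
    induction n with
    | zero =>
      simp only [pow_zero, one_mul, mul_one, sub_self, Nat.cast_zero, zero_smul]
      exact Bd.zero (mul_nonneg h2 hδ0)
    | succ n ih =>
      have e1 : (T ^ (n + 1) * P - P * T ^ (n + 1)) - ((n + 1 : ℕ) : ℚ_[ℓ]) • D =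
          (T * ((T ^ n * P - P * T ^ n) - (n : ℚ_[ℓ]) • D)) +
            (((n : ℚ_[ℓ]) • ((T - 1) * D)) + D * (T ^ n - 1)) := by
        rw [hD]
        push_cast
        rw [add_smul, one_smul, pow_succ']
        simp only [mul_sub, sub_mul, mul_assoc, mul_smul_comm, smul_mul_assoc, mul_one, one_mul,
          smul_sub]
        have e2 : T ^ n * T = T * T ^ n := (pow_succ T n).symm.trans (pow_succ' T n)
        abel
      rw [e1]
      refine Bd.add ?_ (Bd.add ?_ ?_)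
      · have h3 := (hT 1).2
        rw [pow_one] at h3
        have := h3.mul ih zero_le_one (mul_nonneg h2 hδ0)
        rwa [one_mul] at this
      · have h3 := (Bd.mul h hDd h2 hδ0).smul (n : ℚ_[ℓ])
        refine h3.mono ?_
        have h4 : ‖(n : ℚ_[ℓ])‖ ≤ 1 := by
          have := Padic.norm_int_le_one (p := ℓ) (n : ℤ)
          exact_mod_cast this
        calc ‖(n : ℚ_[ℓ])‖ * ((ℓ : ℝ) ^ (-2 : ℤ) * δ) ≤ 1 * ((ℓ : ℝ) ^ (-2 : ℤ) * δ) :=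
              mul_le_mul_of_nonneg_right h4 (mul_nonneg h2 hδ0)
          _ = _ := one_mul _
      · have := hDd.mul (hT n).1 hδ0 h2
        rwa [mul_comm δ] at this
  have h3 := key ℓ i0 j0
  have h4 := hr i0 j0
  have h5 : ‖(ℓ : ℚ_[ℓ]) * D i0 j0‖ = (ℓ : ℝ) ^ (-1 : ℤ) * δ := by
    rw [norm_mul, Padic.norm_p, _root_.zpow_neg_one]
  have h6 : (ℓ : ℚ_[ℓ]) * D i0 j0 = (T ^ ℓ * P - P * T ^ ℓ) i0 j0 -
      ((T ^ ℓ * P - P * T ^ ℓ) - (ℓ : ℚ_[ℓ]) • D) i0 j0 := by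
    rw [Matrix.sub_apply _ ((ℓ : ℚ_[ℓ]) • D), Matrix.smul_apply, smul_eq_mul]
    ring
  have h7 : (ℓ : ℝ) ^ (-1 : ℤ) * δ ≤ max ((ℓ : ℝ)⁻¹ * r) ((ℓ : ℝ) ^ (-2 : ℤ) * δ) := by
    rw [← h5, h6]
    rw [sub_eq_add_neg]
    refine (IsUltrametricDist.norm_add_le_max _ _).trans (max_le_max h4 ?_)
    rw [norm_neg]
    exact h3
  have h8 : δ ≤ r := by
    rcases le_max_iff.1 h7 with h9 | h9
    · rw [_root_.zpow_neg_one] at h9
      exact le_of_mul_le_mul_left h9 (inv_pos.2 hl0)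
    · have h10 : δ = 0 := by
        by_contra hne
        have h11 : 0 < δ := lt_of_le_of_ne hδ0 (Ne.symm hne)
        have := mul_lt_mul_of_pos_right h21 h11
        exact absurd h9 (not_le.2 this)
      -- then `D = 0`
      have h12 : 0 ≤ (ℓ : ℝ)⁻¹ * r := (norm_nonneg _).trans h4
      rw [h10]
      exact nonneg_of_mul_nonneg_right h12 (inv_pos.2 hl0)
  exact hDd.mono h8

/-- Iteration. -/
lemma comm_l_pow {T : Matrix ι ι ℚ_[ℓ]} (h : Near T) (P : Matrix ι ι ℚ_[ℓ]) (k : ℕ) {r : ℝ}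
    (hr : Bd (T ^ (ℓ ^ k) * P - P * T ^ (ℓ ^ k)) ((ℓ : ℝ) ^ (-(k : ℤ)) * r)) :
    Bd (T * P - P * T) r := by
  induction k generalizing r with
  | zero =>
    rw [pow_zero, pow_one] at hr
    simpa using hr
  | succ k ih =>
    have hl0 := l_pos (ℓ := ℓ)
    apply ih
    apply comm_l (near_pow_l h k)
    rw [← pow_mul, ← pow_succ]
    refine hr.mono (le_of_eq ?_)
    have e1 : (-((k + 1 : ℕ) : ℤ)) = -1 + -(k : ℤ) := by push_cast; ring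
    rw [e1, zpow_add₀ hl0.ne', _root_.zpow_neg_one, mul_assoc]

/-- Compactness. -/
lemma exists_limit (Y : ℕ → Matrix ι ι ℚ_[ℓ]) (y : ℕ → ℚ_[ℓ]) (hY : ∀ k, Bd (Y k) 1)
    (hy : ∀ k, ‖y k‖ ≤ 1) :
    ∃ (Y₀ : Matrix ι ι ℚ_[ℓ]) (y₀ : ℚ_[ℓ]) (f : ℕ → ℕ), StrictMono f ∧
      (∀ i j, Tendsto (fun k => Y (f k) i j) atTop (𝓝 (Y₀ i j))) ∧
      Tendsto (fun k => y (f k)) atTop (𝓝 y₀) := by
  have hc : IsCompact (Set.pi Set.univ (fun _ : Option (ι × ι) =>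
      Metric.closedBall (0 : ℚ_[ℓ]) 1)) :=
    isCompact_univ_pi fun _ => isCompact_closedBall _ _
  let z : ℕ → (Option (ι × ι) → ℚ_[ℓ]) := fun k o =>
    match o with
    | none => y k
    | some q => Y k q.1 q.2
  have hz : ∀ k, z k ∈ Set.pi Set.univ (fun _ : Option (ι × ι) =>
      Metric.closedBall (0 : ℚ_[ℓ]) 1) := by
    intro k o _
    rw [mem_closedBall_zero_iff]
    cases o with
    | none => exact hy k
    | some q => exact hY k q.1 q.2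
  obtain ⟨a, -, f, hf, hlim⟩ := hc.tendsto_subseq hz
  rw [tendsto_pi_nhds] at hlim
  exact ⟨fun i j => a (some (i, j)), a none, f, hf, fun i j => hlim (some (i, j)), hlim none⟩

end Pool.Agent.X259.Q
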