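import Mathlib

/-!
# The first order term of an invariance property of a multilinear form
-/

set_option autoImplicit false

namespace Pool.Agent.X259.Q

open Filter Topology

variable {ℓ : ℕ} [Fact ℓ.Prime] {ι : Type} [Fintype ι] [DecidableEq ι] {κ : Type} [Fintype κ]
  [DecidableEq κ]

lemma form_continuous (φ : MultilinearMap ℚ_[ℓ] (fun _ : κ => ι → ℚ_[ℓ]) ℚ_[ℓ]) :
    Continuous φ := by
  have h : ∀ w : κ → ι → ℚ_[ℓ], φ w =
      ∑ I : κ → ι, (∏ l, w l (I l)) * φ (fun l => Pi.single (I l) 1) := by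
    intro w
    have h1 : w = fun l => ∑ i, w l i • (Pi.single i 1 : ι → ℚ_[ℓ]) := by
      funext l
      exact pi_eq_sum_univ' (w l)
    conv_lhs => rw [h1]
    rw [MultilinearMap.map_sum]
    refine Finset.sum_congr rfl fun I _ => ?_
    rw [MultilinearMap.map_smul_univ, smul_eq_mul]
  have h2 : (φ : (κ → ι → ℚ_[ℓ]) → ℚ_[ℓ]) =
      fun w => ∑ I : κ → ι, (∏ l, w l (I l)) * φ (fun l => Pi.single (I l) 1) := funext h
  rw [h2]
  fun_prop

/-- The first order term. -/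
lemma first_order (φ : MultilinearMap ℚ_[ℓ] (fun _ : κ => ι → ℚ_[ℓ]) ℚ_[ℓ]) (N M : ℕ)
    (t : ℕ → ℚ_[ℓ]) (ht0 : ∀ k, t k ≠ 0) (ht : Tendsto t atTop (𝓝 0))
    (Y : ℕ → Matrix ι ι ℚ_[ℓ]) (y : ℕ → ℚ_[ℓ]) (Y₀ : Matrix ι ι ℚ_[ℓ]) (y₀ : ℚ_[ℓ])
    (hY : Tendsto Y atTop (𝓝 Y₀)) (hy : Tendsto y atTop (𝓝 y₀))
    (h : ∀ (k : ℕ) (v : κ → ι → ℚ_[ℓ]),
      φ (fun l => ((1 + t k • Y k) ^ N).mulVec (v l)) = (1 + t k * y k) ^ M * φ v)
    (v : κ → ι → ℚ_[ℓ]) :
    (N : ℚ_[ℓ]) * ∑ j, φ (Function.update v j (Y₀.mulVec (v j))) = M * y₀ * φ v := by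
  let φc : ContinuousMultilinearMap ℚ_[ℓ] (fun _ : κ => ι → ℚ_[ℓ]) ℚ_[ℓ] :=
    ⟨φ, form_continuous φ⟩
  -- the left side
  have hZ : Tendsto (fun k => Y k * ∑ i ∈ Finset.range N, (1 + t k • Y k) ^ i) atTop
      (𝓝 (Y₀ * ∑ i ∈ Finset.range N, (1 + (0 : ℚ_[ℓ]) • Y₀) ^ i)) := by
    refine hY.mul (tendsto_finsetSum _ fun i _ => ?_)
    exact (tendsto_const_nhds.add (ht.smul hY)).pow i
  have hZ' : Y₀ * ∑ i ∈ Finset.range N, (1 + (0 : ℚ_[ℓ]) • Y₀) ^ i = (N : ℚ_[ℓ]) • Y₀ := by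
    simp only [zero_smul, add_zero, one_pow, Finset.sum_const, Finset.card_range, nsmul_eq_mul,
      mul_one]
    rw [← nsmul_eq_mul', Nat.cast_smul_eq_nsmul]
  rw [hZ'] at hZ
  have hpow : ∀ k, (1 + t k • Y k) ^ N = 1 + t k • (Y k * ∑ i ∈ Finset.range N,
      (1 + t k • Y k) ^ i) := by
    intro k
    have h1 := mul_geom_sum (1 + t k • Y k) N
    have h2 : (1 + t k • Y k - 1) = t k • Y k := by abel
    rw [h2, smul_mul_assoc] at h1
    rw [h1]
    abel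
  have hfd := (φc.hasFDerivAt v).hasFDerivWithinAt (s := Set.univ)
  let d : ℕ → κ → ι → ℚ_[ℓ] := fun k l =>
    t k • (Y k * ∑ i ∈ Finset.range N, (1 + t k • Y k) ^ i).mulVec (v l)
  have hd1 : ∀ l, Tendsto (fun k =>
      (Y k * ∑ i ∈ Finset.range N, (1 + t k • Y k) ^ i).mulVec (v l)) atTop
      (𝓝 (((N : ℚ_[ℓ]) • Y₀).mulVec (v l))) := by
    intro l
    have hcont : Continuous fun A : Matrix ι ι ℚ_[ℓ] => A.mulVec (v l) :=
      continuous_id.matrix_mulVec continuous_const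
    exact (hcont.tendsto _).comp hZ
  have hd0 : Tendsto d atTop (𝓝 0) := by
    rw [tendsto_pi_nhds]
    intro l
    have h1 := ht.smul (hd1 l)
    rw [zero_smul] at h1
    exact h1
  have hcd : Tendsto (fun k => (t k)⁻¹ • d k) atTop
      (𝓝 (fun l => ((N : ℚ_[ℓ]) • Y₀).mulVec (v l))) := by
    rw [tendsto_pi_nhds]
    intro l
    refine (hd1 l).congr fun k => ?_
    exact (inv_smul_smul₀ (ht0 k) _).symm
  have hlim := hfd.lim (l := atTop) (c := fun k => (t k)⁻¹) (d := d) hd0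
    (Eventually.of_forall fun k => Set.mem_univ _) hcd
  have hval : ∀ k, φc (v + d k) = (1 + t k * y k) ^ M * φ v := by
    intro k
    rw [← h k v]
    change φ (v + d k) = _
    congr 1
    funext l
    rw [hpow k, Matrix.add_mulVec, Matrix.one_mulVec, Matrix.smul_mulVec]
    rfl
  have hlim2 : Tendsto (fun k => (t k)⁻¹ • (φc (v + d k) - φc v)) atTop
      (𝓝 ((M : ℚ_[ℓ]) * y₀ * φ v)) := by
    have h1 : Tendsto (fun k => y k * ∑ i ∈ Finset.range M, (1 + t k * y k) ^ i) atTop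
        (𝓝 (y₀ * ∑ i ∈ Finset.range M, (1 + (0 : ℚ_[ℓ]) * y₀) ^ i)) := by
      refine hy.mul (tendsto_finsetSum _ fun i _ => ?_)
      exact (tendsto_const_nhds.add (ht.mul hy)).pow i
    have h2 : y₀ * ∑ i ∈ Finset.range M, (1 + (0 : ℚ_[ℓ]) * y₀) ^ i = (M : ℚ_[ℓ]) * y₀ := by
      simp only [zero_mul, add_zero, one_pow, Finset.sum_const, Finset.card_range, nsmul_eq_mul,
        mul_one]
      ring
    rw [h2] at h1
    refine (h1.mul_const (φ v)).congr fun k => ?_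
    rw [hval k]
    have h3 := mul_geom_sum (1 + t k * y k) M
    have h4 : (1 + t k * y k) ^ M * φ v - φc v = ((1 + t k * y k) ^ M - 1) * φ v := by
      change _ * φ v - φ v = _
      ring
    rw [h4, ← h3, smul_eq_mul]
    have h5 := ht0 k
    field_simp
    ring
  have heq := tendsto_nhds_unique hlim hlim2
  rw [ContinuousMultilinearMap.linearDeriv_apply] at heq
  rw [← heq, Finset.mul_sum]
  refine Finset.sum_congr rfl fun j _ => ?_
  change _ = φ (Function.update v j (((N : ℚ_[ℓ]) • Y₀).mulVec (v j)))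
  rw [Matrix.smul_mulVec, MultilinearMap.map_update_smul, smul_eq_mul]

end Pool.Agent.X259.Q
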