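import Mathlib
import Pool.Agent.W516.MT.Main2

/-!
# Semisimplicity of the action of a normalized Lie algebra, and the positivity of the trace form
-/

set_option autoImplicit false

namespace Pool.Agent.X259.Q

open Module Pool.Agent.W516.KC

section Socle

variable {k V : Type} [Field k] [AddCommGroup V] [Module k V]
  (𝔥 : Submodule k (Module.End k V))

/-- The associative algebra generated by the subspace. -/
abbrev Alg : Subalgebra k (Module.End k V) := Algebra.adjoin k (𝔥 : Set (Module.End k V))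

variable {𝔥}

lemma conj_mem {T T' : Module.End k V} (h1 : T * T' = 1) (h2 : T' * T = 1)
    (h : ∀ X ∈ 𝔥, T' * X * T ∈ 𝔥)
    {r : Module.End k V} (hr : r ∈ Alg 𝔥) : T' * r * T ∈ Alg 𝔥 := by
  induction hr using Algebra.adjoin_induction with
  | mem x hx => exact Algebra.subset_adjoin (h x hx)
  | algebraMap c =>
    rw [← Algebra.commutes, mul_assoc, h2, mul_one]
    exact Subalgebra.algebraMap_mem _ c
  | add x y _ _ hx hy =>
    rw [mul_add, add_mul]
    exact add_mem hx hy
  | mul x y _ _ hx hy =>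
    have h3 : T' * (x * y) * T = (T' * x * T) * (T' * y * T) := by
      calc T' * (x * y) * T = T' * x * 1 * (y * T) := by rw [mul_one]; simp only [mul_assoc]
        _ = _ := by rw [← h1]; simp only [mul_assoc]
    rw [h3]
    exact mul_mem hx hy

/-- A stable subspace as a submodule over the algebra. -/
def toSub (U : Submodule k V) (hU : ∀ X ∈ 𝔥, ∀ u ∈ U, X u ∈ U) : Submodule (Alg 𝔥) V where
  carrier := U
  add_mem' := U.add_mem
  zero_mem' := U.zero_mem
  smul_mem' := by
    rintro ⟨r, hr⟩ u hu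
    change r u ∈ U
    have h : ∀ u ∈ U, r u ∈ U := by
      induction hr using Algebra.adjoin_induction with
      | mem x hx => exact hU x hx
      | algebraMap c => exact fun u hu => U.smul_mem c hu
      | add x y _ _ hx hy => exact fun u hu => U.add_mem (hx u hu) (hy u hu)
      | mul x y _ _ hx hy => exact fun u hu => hx _ (hy u hu)
    exact h u hu

lemma mem_toSub (U : Submodule k V) (hU : ∀ X ∈ 𝔥, ∀ u ∈ U, X u ∈ U) (v : V) :
    v ∈ toSub U hU ↔ v ∈ U := Iff.rfl

lemma stable (U : Submodule (Alg 𝔥) V) {X : Module.End k V} (hX : X ∈ 𝔥) {u : V} (hu : u ∈ U) :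
    X u ∈ U := U.smul_mem ⟨X, Algebra.subset_adjoin hX⟩ hu

/-- The image of a submodule under an operator which normalizes the algebra. -/
def tw {T T' : Module.End k V} (h2 : ∀ r ∈ Alg 𝔥, T' * r * T ∈ Alg 𝔥) (h1 : T * T' = 1)
    (U : Submodule (Alg 𝔥) V) : Submodule (Alg 𝔥) V where
  carrier := {v | T' v ∈ U}
  add_mem' := by
    intro a b ha hb
    change T' (a + b) ∈ U
    rw [map_add]
    exact U.add_mem ha hb
  zero_mem' := by
    change T' 0 ∈ U
    rw [map_zero]
    exact U.zero_mem
  smul_mem' := by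
    rintro ⟨r, hr⟩ u hu
    change T' (r u) ∈ U
    have h3 : T' (r u) = (T' * r * T) (T' u) := by
      have h4 := congrArg (fun f : Module.End k V => f u) h1
      simp only [Module.End.mul_apply, Module.End.one_apply] at h4
      simp only [Module.End.mul_apply, h4]
    rw [h3]
    exact U.smul_mem ⟨_, h2 r hr⟩ hu

/-- The lattice isomorphism. -/
def twIso {T T' : Module.End k V} (h1 : T * T' = 1) (h2 : T' * T = 1)
    (h3 : ∀ X ∈ 𝔥, T' * X * T ∈ 𝔥) (h4 : ∀ X ∈ 𝔥, T * X * T' ∈ 𝔥) :
    Submodule (Alg 𝔥) V ≃o Submodule (Alg 𝔥) V where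
  toFun := tw (fun _ hr => conj_mem h1 h2 h3 hr) h1
  invFun := tw (fun _ hr => conj_mem h2 h1 h4 hr) h2
  left_inv U := by
    ext v
    change T' (T v) ∈ U ↔ v ∈ U
    rw [← Module.End.mul_apply, h2, Module.End.one_apply]
  right_inv U := by
    ext v
    change T (T' v) ∈ U ↔ v ∈ U
    rw [← Module.End.mul_apply, h1, Module.End.one_apply]
  map_rel_iff' := by
    intro U U'
    constructor
    · intro h v hv
      have : T v ∈ tw (fun _ hr => conj_mem h1 h2 h3 hr) h1 U := by
        change T' (T v) ∈ U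
        rwa [← Module.End.mul_apply, h2, Module.End.one_apply]
      have := h this
      change T' (T v) ∈ U' at this
      rwa [← Module.End.mul_apply, h2, Module.End.one_apply] at this
    · intro h v hv
      exact h hv

variable [FiniteDimensional k V] {Γ : Type} [Group Γ] (ρ : Γ →* Module.End k V)

/-- The subspace acts semisimply. -/
lemma semi_of (hconj : ∀ (s : Γ), ∀ X ∈ 𝔥, ρ s * X * ρ s⁻¹ ∈ 𝔥)
    (hss : ∀ U : Submodule k V, (∀ s, ∀ u ∈ U, ρ s u ∈ U) →
      ∃ U' : Submodule k V, (∀ s, ∀ u ∈ U', ρ s u ∈ U') ∧ IsCompl U U')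
    (hcomm : ∀ P : Module.End k V, (∀ s, P * ρ s = ρ s * P) → ∀ X ∈ 𝔥, X * P = P * X) :
    Semi 𝔥 := by
  classical
  have hone : ∀ s : Γ, ρ s * ρ s⁻¹ = 1 := fun s => by rw [← map_mul, mul_inv_cancel, map_one]
  have hone' : ∀ s : Γ, ρ s⁻¹ * ρ s = 1 := fun s => by rw [← map_mul, inv_mul_cancel, map_one]
  have hconj' : ∀ (s : Γ), ∀ X ∈ 𝔥, ρ s⁻¹ * X * ρ s ∈ 𝔥 := by
    intro s X hX
    have := hconj s⁻¹ X hX
    rwa [inv_inv] at this
  let S : Submodule (Alg 𝔥) V := sSup {a | IsAtom a}
  have hart : IsArtinian (Alg 𝔥) V := isArtinian_of_tower k inferInstance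
  -- the socle is stable under the group
  have hS : ∀ s, ∀ u ∈ S, ρ s u ∈ S := by
    intro s u hu
    let e := twIso (hone s) (hone' s) (hconj' s) (hconj s)
    have h1 : e S ≤ S := by
      rw [OrderIso.map_sSup]
      refine iSup₂_le fun a ha => ?_
      exact le_sSup ((OrderIso.isAtom_iff e a).2 ha)
    have h2 : ρ s u ∈ e S := by
      change ρ s⁻¹ (ρ s u) ∈ S
      rwa [← Module.End.mul_apply, hone' s, Module.End.one_apply]
    exact h1 h2
  -- a complement
  let S' : Submodule k V := S.restrictScalars k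
  obtain ⟨U', hU', hc⟩ := hss S' hS
  let P : Module.End k V := U'.subtype ∘ₗ (U'.projectionOnto S' hc.symm)
  have hP1 : ∀ v, P v ∈ U' := fun v => (U'.projectionOnto S' hc.symm v).2
  have hP2 : ∀ v ∈ U', P v = v := fun v hv => by
    change ((U'.projectionOnto S' hc.symm v : U') : V) = v
    rw [Submodule.projectionOnto_apply_left hc.symm ⟨v, hv⟩]
  have hP3 : ∀ v ∈ S', P v = 0 := fun v hv => by
    change ((U'.projectionOnto S' hc.symm v : U') : V) = 0
    rw [(Submodule.projectionOnto_apply_eq_zero_iff hc.symm).2 hv]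
    rfl
  have hPρ : ∀ s, P * ρ s = ρ s * P := by
    intro s
    refine LinearMap.ext fun v => ?_
    obtain ⟨a, ha, b, hb, rfl⟩ := Submodule.mem_sup.1
      (show v ∈ S' ⊔ U' by rw [hc.sup_eq_top]; trivial)
    rw [Module.End.mul_apply, Module.End.mul_apply, map_add, map_add, map_add, hP3 a ha,
      hP2 b hb, hP3 _ (hS s a ha), hP2 _ (hU' s b hb), zero_add, zero_add]
  have hU'X : ∀ X ∈ 𝔥, ∀ u ∈ U', X u ∈ U' := by
    intro X hX u hu
    have h1 := congrArg (fun f : Module.End k V => f u) (hcomm P hPρ X hX)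
    simp only [Module.End.mul_apply] at h1
    rw [hP2 u hu] at h1
    rw [h1]
    exact hP1 _
  have hbot : toSub U' hU'X = ⊥ := by
    by_contra hne
    obtain ⟨a, ha, hle⟩ := (IsAtomic.eq_bot_or_exists_atom_le (toSub U' hU'X)).resolve_left hne
    have h1 : a ≤ S := le_sSup ha
    apply ha.1
    rw [eq_bot_iff]
    intro v hv
    have h2 : v ∈ S' ⊓ U' := ⟨h1 hv, hle hv⟩
    rw [hc.inf_eq_bot] at h2
    exact h2
  have htop : S = ⊤ := by
    rw [eq_top_iff]
    intro v _
    obtain ⟨a, ha, b, hb, rfl⟩ := Submodule.mem_sup.1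
      (show v ∈ S' ⊔ U' by rw [hc.sup_eq_top]; trivial)
    have h1 : b ∈ toSub U' hU'X := hb
    rw [hbot] at h1
    rw [(Submodule.mem_bot _).1 h1, add_zero]
    exact ha
  have hcl : ComplementedLattice (Submodule (Alg 𝔥) V) :=
    complementedLattice_of_sSup_atoms_eq_top htop
  intro U hU
  obtain ⟨C, hC⟩ := exists_isCompl (toSub U hU)
  refine ⟨C.restrictScalars k, fun X hX u hu => stable C hX hu, ?_, ?_⟩
  · rw [disjoint_iff, eq_bot_iff]
    rintro v ⟨h1, h2⟩
    have h3 : v ∈ toSub U hU ⊓ C := ⟨h1, h2⟩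
    rw [hC.inf_eq_bot] at h3
    exact h3
  · rw [codisjoint_iff, eq_top_iff]
    intro v _
    obtain ⟨a, ha, b, hb, rfl⟩ := Submodule.mem_sup.1
      (show v ∈ toSub U hU ⊔ C by rw [hC.sup_eq_top]; trivial)
    exact Submodule.add_mem_sup ha hb

end Socle

section Ros

/-- The trace form on the skew endomorphisms that commute with the complex structure is negative
definite. -/
lemma ros {W T : Type} [AddCommGroup W] [Module ℚ W] [FiniteDimensional ℚ W] [AddCommGroup T]
    [Module ℂ T] (per : W →+ T) (n : ℕ) (b : Basis (Fin n) ℚ W) (b' : Basis (Fin n) ℝ T)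
    (hb : ∀ i, b' i = per (b i)) (ω₀ : W →ₗ[ℚ] W →ₗ[ℚ] ℚ) (E : T →ₗ[ℝ] T →ₗ[ℝ] ℝ)
    (h1 : ∀ x y, E (per x) (per y) = ω₀ x y)
    (h2 : ∀ u v, E (Complex.I • u) (Complex.I • v) = E u v)
    (h3 : ∀ u, E u u = 0) (h4 : ∀ u, u ≠ 0 → 0 < E (Complex.I • u) u)
    (P : W →ₗ[ℚ] W) (P' : T →ₗ[ℂ] T) (hP : ∀ w, P' (per w) = per (P w))
    (hsk : ∀ u v, ω₀ (P u) v + ω₀ u (P v) = 0) (htr : LinearMap.trace ℚ W (P ∘ₗ P) = 0) :
    P = 0 := by
  classical
  -- the positive definite form
  have hanti : ∀ u v, E u v = - E v u := by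
    intro u v
    have h := h3 (u + v)
    simp only [map_add, LinearMap.add_apply, h3, zero_add, add_zero] at h
    linarith
  have hII : ∀ u : T, Complex.I • Complex.I • u = -u := by
    intro u
    rw [smul_smul, Complex.I_mul_I, neg_smul, one_smul]
  let core : InnerProductSpace.Core ℝ T :=
    { inner := fun u v => E (Complex.I • u) v
      conj_inner_symm := by
        intro u v
        change E (Complex.I • v) u = E (Complex.I • u) v
        have e1 := h2 (Complex.I • v) u
        rw [hII, map_neg, LinearMap.neg_apply] at e1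
        rw [← e1, ← hanti]
      re_inner_nonneg := by
        intro u
        change 0 ≤ E (Complex.I • u) u
        by_cases hu : u = 0
        · rw [hu, map_zero]
        · exact (h4 u hu).le
      add_left := by
        intro u v w
        change E (Complex.I • (u + v)) w = E (Complex.I • u) w + E (Complex.I • v) w
        rw [smul_add, map_add, LinearMap.add_apply]
      smul_left := by
        intro u v r
        change E (Complex.I • (r • u)) v = r * E (Complex.I • u) v
        rw [smul_comm, map_smul, LinearMap.smul_apply, smul_eq_mul]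
      definite := by
        intro u hu
        by_contra hne
        exact (h4 u hne).ne' hu }
  let _ : NormedAddCommGroup T := core.toNormedAddCommGroup
  let _ : InnerProductSpace ℝ T := InnerProductSpace.ofCore core.toCore
  have hfin : FiniteDimensional ℝ T := b'.finiteDimensional_of_finite
  let Q : T →ₗ[ℝ] T := P'.restrictScalars ℝ
  have hQ : ∀ x, Q x = P' x := fun _ => rfl
  -- skew symmetry
  have hskew : ∀ x y, E (Q x) y + E x (Q y) = 0 := by
    have h5 : E ∘ₗ Q + (LinearMap.lcomp ℝ ℝ Q) ∘ₗ E = 0 := by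
      refine b'.ext fun i => b'.ext fun j => ?_
      rw [hb i, hb j]
      change E (P' (per (b i))) (per (b j)) + E (per (b i)) (P' (per (b j))) = 0
      rw [hP, hP, h1, h1]
      have := hsk (b i) (b j)
      exact_mod_cast this
    intro x y
    exact congrArg (fun f : T →ₗ[ℝ] T →ₗ[ℝ] ℝ => f x y) h5
  have hper : ∀ (q : ℚ) (w : W), per (q • w) = (q : ℝ) • per w := fun q w =>
    map_ratCast_smul per ℚ ℝ q w
  have hrep : ∀ w : W, per w = ∑ i, ((b.repr w i : ℚ) : ℝ) • b' i := by
    intro w
    conv_lhs => rw [← b.sum_repr w]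
    rw [map_sum]
    refine Finset.sum_congr rfl fun i _ => ?_
    rw [hb i, hper]
  have hin : ∀ u v : T, inner ℝ u v = E (Complex.I • u) v := fun _ _ => rfl
  have hskew' : ∀ x y : T, inner ℝ (Q x) y = - inner ℝ x (Q y) := by
    intro x y
    rw [hin, hin]
    have e1 := hskew (Complex.I • x) y
    have e2 : Q (Complex.I • x) = Complex.I • Q x := P'.map_smul _ _
    rw [e2] at e1
    linarith
  -- the traces
  have htr' : LinearMap.trace ℝ T (Q ∘ₗ Q) = 0 := by
    have hm : LinearMap.toMatrix b' b' Q = (LinearMap.toMatrix b b P).map (algebraMap ℚ ℝ) := by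
      ext i j
      rw [LinearMap.toMatrix_apply, Matrix.map_apply, LinearMap.toMatrix_apply, hb j]
      have e1 : Q (per (b j)) = ∑ i, ((b.repr (P (b j)) i : ℚ) : ℝ) • b' i := by
        rw [hQ, hP, hrep]
      rw [e1, map_sum, Finsupp.finsetSum_apply]
      simp [Finsupp.single_apply]
    rw [LinearMap.trace_eq_matrix_trace ℝ b', LinearMap.toMatrix_comp b' b' b', hm,
      ← Matrix.map_mul, ← LinearMap.toMatrix_comp b b b]
    rw [LinearMap.trace_eq_matrix_trace ℚ b] at htr
    have := congrArg (algebraMap ℚ ℝ) htr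
    rw [map_zero] at this
    rw [← this, Matrix.trace, Matrix.trace, map_sum]
    rfl
  -- the conclusion
  have hQ0 : Q = 0 := by
    let e := stdOrthonormalBasis ℝ T
    rw [LinearMap.trace_eq_sum_inner _ e] at htr'
    have h6 : ∀ i, inner ℝ (Q (e i)) (Q (e i)) = 0 := by
      have h7 : ∑ i, inner ℝ (Q (e i)) (Q (e i)) = 0 := by
        rw [← neg_eq_zero, ← htr', ← Finset.sum_neg_distrib]
        refine Finset.sum_congr rfl fun i _ => ?_
        rw [hskew' (e i) (Q (e i)), neg_neg]
        rfl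
      intro i
      exact (Finset.sum_eq_zero_iff_of_nonneg (fun i _ => real_inner_self_nonneg)).1 h7 i
        (Finset.mem_univ i)
    refine e.toBasis.ext fun i => ?_
    rw [OrthonormalBasis.coe_toBasis, LinearMap.zero_apply]
    exact inner_self_eq_zero.1 (h6 i)
  refine b.ext fun i => ?_
  have h8 : per (P (b i)) = 0 := by
    rw [← hP, ← hQ, hQ0, LinearMap.zero_apply]
  rw [hrep] at h8
  have h9 := Fintype.linearIndependent_iff.1 b'.linearIndependent _ h8
  rw [LinearMap.zero_apply]
  apply b.repr.injective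
  ext i
  rw [map_zero, Finsupp.zero_apply]
  exact_mod_cast h9 i

end Ros

end Pool.Agent.X259.Q
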