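import Pool.Agent.X259.Q1
import Pool.Agent.X259.Q2
import Pool.Agent.X259.Q3

/-!
# The commutant of the Lie algebra of the endomorphisms which kill all Tate classes
-/

set_option autoImplicit false

namespace Pool.Agent.X259.Q

open Module Filter Topology Pool.Agent.H204R3.SP

variable {ℓ : ℕ} [Fact ℓ.Prime] {V : Type} [AddCommGroup V] [Module ℚ_[ℓ] V]
  {Γ : Type} [Group Γ] (ρ : Representation ℚ_[ℓ] Γ V) (χ : Γ →* ℚ_[ℓ])
  {ι : Type} [Fintype ι] [DecidableEq ι] (B : Basis ι ℚ_[ℓ] V)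

/-- The matrix of an element of the group. -/
noncomputable def mat (s : Γ) : Matrix ι ι ℚ_[ℓ] := LinearMap.toMatrix B B (ρ s)

lemma mat_mul (s t : Γ) : mat ρ B (s * t) = mat ρ B s * mat ρ B t := by
  rw [mat, map_mul]
  exact LinearMap.toMatrix_mul B _ _

lemma mat_one : mat ρ B 1 = 1 := by
  rw [mat, map_one]
  exact LinearMap.toMatrix_one B

lemma mat_pow (s : Γ) (n : ℕ) : mat ρ B (s ^ n) = mat ρ B s ^ n := by
  induction n with
  | zero => rw [pow_zero, pow_zero, mat_one]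
  | succ n ih => rw [pow_succ, mat_mul, ih, pow_succ]

/-- The action is continuous. -/
def Cont [TopologicalSpace Γ] : Prop :=
  ∀ (v : V) (f : V →ₗ[ℚ_[ℓ]] ℚ_[ℓ]), Continuous fun s => f (ρ s v)

/-- Elements near to one. -/
def NearOne (s : Γ) : Prop := Near (mat ρ B s) ∧ ‖χ s - 1‖ ≤ (ℓ : ℝ) ^ (-2 : ℤ)

lemma c_le_one : (ℓ : ℝ) ^ (-2 : ℤ) ≤ 1 := by
  have := zpow_le_zpow_right₀ (one_lt_l (ℓ := ℓ)).le (show (-2 : ℤ) ≤ 0 by norm_num)
  rwa [zpow_zero] at this

lemma c_pos : 0 < (ℓ : ℝ) ^ (-2 : ℤ) := zpow_pos (l_pos (ℓ := ℓ)) _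

lemma NearOne.mul {s t : Γ} (hs : NearOne ρ χ B s) (ht : NearOne ρ χ B t) :
    NearOne ρ χ B (s * t) := by
  constructor
  · rw [mat_mul]
    have e1 : mat ρ B s * mat ρ B t - 1 = (mat ρ B s - 1) * mat ρ B t + (mat ρ B t - 1) := by
      rw [sub_mul, one_mul]
      abel
    unfold Near
    rw [e1]
    refine Bd.add ?_ ht.1
    have h1 : Bd (mat ρ B t) 1 := by
      have := (Bd.pow_sub_one ht.1 (c_pos (ℓ := ℓ)).le (c_le_one (ℓ := ℓ)) 1).2
      rwa [pow_one] at this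
    have := Bd.mul hs.1 h1 (c_pos (ℓ := ℓ)).le zero_le_one
    rwa [mul_one] at this
  · rw [map_mul]
    have e1 : χ s * χ t - 1 = (χ s - 1) * χ t + (χ t - 1) := by ring
    rw [e1]
    refine (IsUltrametricDist.norm_add_le_max _ _).trans (max_le ?_ ht.2)
    have h1 : ‖χ t‖ ≤ 1 := by
      have e2 : χ t = (χ t - 1) + 1 := by ring
      rw [e2]
      refine (IsUltrametricDist.norm_add_le_max _ _).trans (max_le (ht.2.trans c_le_one) ?_)
      rw [norm_one]
    rw [norm_mul]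
    calc ‖χ s - 1‖ * ‖χ t‖ ≤ (ℓ : ℝ) ^ (-2 : ℤ) * 1 :=
          mul_le_mul hs.2 h1 (norm_nonneg _) (c_pos (ℓ := ℓ)).le
      _ = _ := mul_one _

/-- Near the identity. -/
lemma exists_near [TopologicalSpace Γ] [IsTopologicalGroup Γ] [CompactSpace Γ] (hρ : Cont ρ)
    (hχ : Continuous χ) : ∃ Δ : Subgroup Γ, Δ.FiniteIndex ∧ ∀ s ∈ Δ, NearOne ρ χ B s := by
  let Δ : Subgroup Γ :=
    { carrier := {s | NearOne ρ χ B s ∧ NearOne ρ χ B s⁻¹}
      mul_mem' := by
        rintro a b ⟨ha, ha'⟩ ⟨hb, hb'⟩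
        refine ⟨ha.mul ρ χ B hb, ?_⟩
        rw [mul_inv_rev]
        exact hb'.mul ρ χ B ha'
      one_mem' := by
        have : NearOne ρ χ B 1 := by
          refine ⟨?_, ?_⟩
          · unfold Near
            rw [mat_one, sub_self]
            exact Bd.zero (c_pos (ℓ := ℓ)).le
          · rw [map_one, sub_self, norm_zero]
            exact (c_pos (ℓ := ℓ)).le
        refine ⟨this, ?_⟩
        rwa [inv_one]
      inv_mem' := by
        rintro a ⟨ha, ha'⟩
        refine ⟨ha', ?_⟩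
        rwa [inv_inv] }
  have hopen1 : IsOpen {s | NearOne ρ χ B s} := by
    have h1 : {s | NearOne ρ χ B s} =
        (⋂ i, ⋂ j, (fun s => (mat ρ B s - 1) i j) ⁻¹' Metric.closedBall 0 ((ℓ : ℝ) ^ (-2 : ℤ))) ∩
        (fun s => χ s - 1) ⁻¹' Metric.closedBall 0 ((ℓ : ℝ) ^ (-2 : ℤ)) := by
      ext s
      simp only [NearOne, Near, Bd, Set.mem_ofPred_eq, Set.mem_inter_iff, Set.mem_iInter,
        Set.mem_preimage, mem_closedBall_zero_iff]
    rw [h1]
    have hcb : IsOpen (Metric.closedBall (0 : ℚ_[ℓ]) ((ℓ : ℝ) ^ (-2 : ℤ))) :=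
      IsUltrametricDist.isOpen_closedBall _ (c_pos (ℓ := ℓ)).ne'
    refine IsOpen.inter (isOpen_iInter_of_finite fun i => isOpen_iInter_of_finite fun j => ?_) ?_
    · refine hcb.preimage ?_
      have h2 : (fun s => (mat ρ B s - 1) i j) = fun s => B.coord i (ρ s (B j)) -
          (1 : Matrix ι ι ℚ_[ℓ]) i j := by
        funext s
        rw [Matrix.sub_apply, mat, LinearMap.toMatrix_apply]
        rfl
      rw [h2]
      exact (hρ (B j) (B.coord i)).sub continuous_const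
    · exact hcb.preimage (hχ.sub continuous_const)
  have hopen : IsOpen (Δ : Set Γ) := hopen1.inter (hopen1.preimage continuous_inv)
  have hfin : Finite (Γ ⧸ Δ) := Subgroup.quotient_finite_of_isOpen Δ hopen
  exact ⟨Δ, Subgroup.finiteIndex_of_finite_quotient, fun s hs => hs.1⟩

end Pool.Agent.X259.Q
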