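import Pool.Agent.X259.Q4

/-!
# The commutant of the Lie algebra of the endomorphisms which kill all Tate classes, second part
-/

set_option autoImplicit false

namespace Pool.Agent.X259.Q

open Module Filter Topology Pool.Agent.H204R3.SP

variable {ℓ : ℕ} [Fact ℓ.Prime] {V : Type} [AddCommGroup V] [Module ℚ_[ℓ] V]
  {Γ : Type} [Group Γ] (ρ : Representation ℚ_[ℓ] Γ V) (χ : Γ →* ℚ_[ℓ])
  {ι : Type} [Fintype ι] [DecidableEq ι] (B : Basis ι ℚ_[ℓ] V)

lemma equivFun_rho (s : Γ) (v : V) : B.equivFun (ρ s v) = (mat ρ B s).mulVec (B.equivFun v) := by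
  rw [mat]
  exact (LinearMap.toMatrix_mulVec_repr B B (ρ s) v).symm

/-- The scalar version of the congruences. -/
lemma scalar_pow {c : ℚ_[ℓ]} (hc : ‖c - 1‖ ≤ (ℓ : ℝ) ^ (-2 : ℤ)) (k : ℕ) :
    ‖c ^ (ℓ ^ k) - 1‖ ≤ (ℓ : ℝ) ^ (-2 - (k : ℤ)) := by
  let A : Matrix Unit Unit ℚ_[ℓ] := algebraMap ℚ_[ℓ] _ c
  have h1 : Near A := by
    intro i j
    have : (A - 1) i j = c - 1 := by
      rw [Matrix.sub_apply]
      change (algebraMap ℚ_[ℓ] (Matrix Unit Unit ℚ_[ℓ]) c) () () - (1 : Matrix Unit Unit ℚ_[ℓ]) () () = _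
      rw [Matrix.algebraMap_matrix_apply, if_pos rfl, Matrix.one_apply_eq]
      rfl
    rw [this]
    exact hc
  have h2 := pow_l_pow h1 k () ()
  have h3 : (A ^ (ℓ ^ k) - 1) () () = c ^ (ℓ ^ k) - 1 := by
    rw [← map_pow, Matrix.sub_apply, Matrix.algebraMap_matrix_apply, if_pos rfl,
      Matrix.one_apply_eq]
    rfl
  rwa [h3] at h2

/-- An element of the Lie algebra from the powers of a group element. -/
lemma exists_log {s : Γ} (hs : NearOne ρ χ B s) :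
    ∃ (t : ℕ → ℚ_[ℓ]) (Y : ℕ → Matrix ι ι ℚ_[ℓ]) (Y₀ : Matrix ι ι ℚ_[ℓ]) (y₀ : ℚ_[ℓ])
      (f : ℕ → ℕ), (∀ k, ‖t k‖ = (ℓ : ℝ) ^ (-2 - (k : ℤ))) ∧
      (∀ k, mat ρ B s ^ (ℓ ^ k) = 1 + t k • Y k) ∧ StrictMono f ∧
      (∀ i j, Tendsto (fun k => Y (f k) i j) atTop (𝓝 (Y₀ i j))) ∧
      Matrix.toLin B B (Y₀ - (y₀ / 2) • 1) ∈ lieT ρ χ := by
  classical
  have hl0 := l_pos (ℓ := ℓ)
  have hlne : (ℓ : ℚ_[ℓ]) ≠ 0 := by exact_mod_cast (Fact.out : ℓ.Prime).ne_zero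
  set A := mat ρ B s with hA
  set c := χ s with hc
  let t : ℕ → ℚ_[ℓ] := fun k => (ℓ : ℚ_[ℓ]) ^ (k + 2)
  have ht0 : ∀ k, t k ≠ 0 := fun k => pow_ne_zero _ hlne
  have htn : ∀ k, ‖t k‖ = (ℓ : ℝ) ^ (-2 - (k : ℤ)) := by
    intro k
    rw [norm_pow, Padic.norm_p, inv_pow, ← zpow_natCast, ← zpow_neg]
    congr 1
    push_cast
    ring
  let Y : ℕ → Matrix ι ι ℚ_[ℓ] := fun k => (t k)⁻¹ • (A ^ (ℓ ^ k) - 1)
  let y : ℕ → ℚ_[ℓ] := fun k => (t k)⁻¹ * (c ^ (ℓ ^ k) - 1)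
  have hY : ∀ k, A ^ (ℓ ^ k) = 1 + t k • Y k := by
    intro k
    change _ = 1 + t k • ((t k)⁻¹ • (A ^ (ℓ ^ k) - 1))
    rw [smul_inv_smul₀ (ht0 k)]
    abel
  have hy : ∀ k, c ^ (ℓ ^ k) = 1 + t k * y k := by
    intro k
    change _ = 1 + t k * ((t k)⁻¹ * (c ^ (ℓ ^ k) - 1))
    rw [mul_inv_cancel_left₀ (ht0 k)]
    ring
  have hYb : ∀ k, Bd (Y k) 1 := by
    intro k
    have h1 := (pow_l_pow hs.1 k).smul (t k)⁻¹
    have h2 : ‖(t k)⁻¹‖ * (ℓ : ℝ) ^ (-2 - (k : ℤ)) = 1 := by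
      rw [norm_inv, htn, inv_mul_cancel₀]
      exact (zpow_pos hl0 _).ne'
    rwa [h2] at h1
  have hyb : ∀ k, ‖y k‖ ≤ 1 := by
    intro k
    have h1 := scalar_pow hs.2 k
    change ‖(t k)⁻¹ * (c ^ (ℓ ^ k) - 1)‖ ≤ 1
    rw [norm_mul, norm_inv, htn]
    calc ((ℓ : ℝ) ^ (-2 - (k : ℤ)))⁻¹ * ‖c ^ (ℓ ^ k) - 1‖
        ≤ ((ℓ : ℝ) ^ (-2 - (k : ℤ)))⁻¹ * (ℓ : ℝ) ^ (-2 - (k : ℤ)) :=
          mul_le_mul_of_nonneg_left h1 (inv_nonneg.2 (zpow_pos hl0 _).le)
      _ = 1 := inv_mul_cancel₀ (zpow_pos hl0 _).ne'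
  obtain ⟨Y₀, y₀, f, hf, hYl, hyl⟩ := exists_limit Y y hYb hyb
  refine ⟨t, Y, Y₀, y₀, f, htn, hY, hf, hYl, ?_⟩
  intro m φ hφ v
  obtain ⟨Δ', hΔ', hinv⟩ := hφ
  obtain ⟨N, hN, -, hNs⟩ := Subgroup.exists_pow_mem_of_index_ne_zero hΔ'.index_ne_zero s
  let ψ : MultilinearMap ℚ_[ℓ] (fun _ : Fin m × Fin 2 => ι → ℚ_[ℓ]) ℚ_[ℓ] :=
    φ.compLinearMap (fun _ => (B.equivFun.symm : (ι → ℚ_[ℓ]) →ₗ[ℚ_[ℓ]] V))
  have hψ : ∀ w, ψ w = φ (fun l => B.equivFun.symm (w l)) := fun _ => rfl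
  have hmain : ∀ (k : ℕ) (w : Fin m × Fin 2 → ι → ℚ_[ℓ]),
      ψ (fun l => ((1 + t (f k) • Y (f k)) ^ N).mulVec (w l)) =
        (1 + t (f k) * y (f k)) ^ (N * m) * ψ w := by
    intro k w
    rw [← hY, ← hy]
    have h1 : s ^ (ℓ ^ f k * N) ∈ Δ' := by
      rw [mul_comm, pow_mul]
      exact Δ'.pow_mem hNs _
    have h2 := hinv _ h1 (fun l => B.equivFun.symm (w l))
    rw [map_pow χ s] at h2
    rw [hψ, hψ]
    have h3 : ∀ l, B.equivFun.symm (((A ^ ℓ ^ f k) ^ N).mulVec (w l)) =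
        ρ (s ^ (ℓ ^ f k * N)) (B.equivFun.symm (w l)) := by
      intro l
      apply B.equivFun.injective
      rw [LinearEquiv.apply_symm_apply, equivFun_rho, LinearEquiv.apply_symm_apply, mat_pow,
        ← pow_mul]
    simp only [h3]
    rw [h2]
    congr 1
    rw [← pow_mul, ← pow_mul]
    congr 1
    ring
  have htf : Tendsto (fun k => t (f k)) atTop (𝓝 0) := by
    have h1 : Tendsto t atTop (𝓝 0) := by
      rw [tendsto_zero_iff_norm_tendsto_zero]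
      have h2 : (fun k => ‖t k‖) = fun k : ℕ => (ℓ : ℝ)⁻¹ ^ 2 * (ℓ : ℝ)⁻¹ ^ k := by
        funext k
        rw [norm_pow, Padic.norm_p, ← pow_add, add_comm]
      rw [h2]
      have h3 := (tendsto_pow_atTop_nhds_zero_of_lt_one (inv_nonneg.2 hl0.le)
        (inv_lt_one_of_one_lt₀ (one_lt_l (ℓ := ℓ)))).const_mul ((ℓ : ℝ)⁻¹ ^ 2)
      rwa [mul_zero] at h3
    exact h1.comp hf.tendsto_atTop
  have hYt : Tendsto (fun k => Y (f k)) atTop (𝓝 Y₀) :=
    tendsto_pi_nhds.2 fun i => tendsto_pi_nhds.2 fun j => hYl i j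
  have hfo := first_order ψ N (N * m) (fun k => t (f k)) (fun k => ht0 _) htf
    (fun k => Y (f k)) (fun k => y (f k)) Y₀ y₀ hYt hyl hmain (fun l => B.equivFun (v l))
  have hN0 : (N : ℚ_[ℓ]) ≠ 0 := by exact_mod_cast hN.ne'
  have hfo' : ∑ j, ψ (Function.update (fun l => B.equivFun (v l)) j
      (Y₀.mulVec (B.equivFun (v j)))) = (m : ℚ_[ℓ]) * y₀ * ψ (fun l => B.equivFun (v l)) := by
    apply mul_left_cancel₀ hN0
    rw [hfo]
    push_cast
    ring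
  -- the action of the limit
  have hψv : ψ (fun l => B.equivFun (v l)) = φ v := by
    rw [hψ]
    simp only [LinearEquiv.symm_apply_apply]
  have hX : ∀ u, Matrix.toLin B B (Y₀ - (y₀ / 2) • 1) u =
      B.equivFun.symm (Y₀.mulVec (B.equivFun u)) + (-(y₀ / 2)) • u := by
    intro u
    apply B.equivFun.injective
    have h1 : B.equivFun (Matrix.toLin B B (Y₀ - (y₀ / 2) • 1) u) =
        (Y₀ - (y₀ / 2) • 1).mulVec (B.equivFun u) := by
      have := LinearMap.toMatrix_mulVec_repr B B (Matrix.toLin B B (Y₀ - (y₀ / 2) • 1)) u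
      rw [LinearMap.toMatrix_toLin] at this
      exact this.symm
    rw [h1, map_add, LinearEquiv.apply_symm_apply, map_smul, Matrix.sub_mulVec,
      Matrix.smul_mulVec, Matrix.one_mulVec, neg_smul]
    abel
  have hterm : ∀ j, φ (Function.update v j (Matrix.toLin B B (Y₀ - (y₀ / 2) • 1) (v j))) =
      ψ (Function.update (fun l => B.equivFun (v l)) j (Y₀.mulVec (B.equivFun (v j)))) +
        (-(y₀ / 2)) * φ v := by
    intro j
    rw [hX, MultilinearMap.map_update_add, MultilinearMap.map_update_smul,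
      Function.update_eq_self, smul_eq_mul]
    congr 1
    rw [hψ]
    congr 1
    funext l
    by_cases hl : l = j
    · subst hl
      rw [Function.update_self, Function.update_self]
    · rw [Function.update_of_ne hl, Function.update_of_ne hl, LinearEquiv.symm_apply_apply]
  rw [Finset.sum_congr rfl fun j _ => hterm j, Finset.sum_add_distrib, hfo', hψv,
    Finset.sum_const, Finset.card_univ, Fintype.card_prod, Fintype.card_fin, Fintype.card_fin,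
    nsmul_eq_mul]
  push_cast
  ring

/-- Elements near to one commute with the commutant of the Lie algebra. -/
lemma comm_of_lieT {s : Γ} (hs : NearOne ρ χ B s) (P : Module.End ℚ_[ℓ] V)
    (hP : ∀ X ∈ lieT ρ χ, X * P = P * X) (v : V) : P (ρ s v) = ρ s (P v) := by
  classical
  obtain ⟨t, Y, Y₀, y₀, f, ht, hY, hf, hYl, hmem⟩ := exists_log ρ χ B hs
  set A := mat ρ B s with hA
  let Q : Matrix ι ι ℚ_[ℓ] := LinearMap.toMatrix B B P
  have h1 : Y₀ * Q = Q * Y₀ := by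
    have h2 := congrArg (LinearMap.toMatrix B B) (hP _ hmem)
    rw [Module.End.mul_eq_comp, Module.End.mul_eq_comp, LinearMap.toMatrix_comp B B B,
      LinearMap.toMatrix_comp B B B, LinearMap.toMatrix_toLin] at h2
    change (Y₀ - (y₀ / 2) • 1) * Q = Q * (Y₀ - (y₀ / 2) • 1) at h2
    rw [sub_mul, mul_sub, smul_mul_assoc, mul_smul_comm, one_mul, mul_one] at h2
    exact sub_left_inj.1 h2
  have hl0 := l_pos (ℓ := ℓ)
  -- the commutators of the approximations tend to zero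
  have h2 : ∀ i j, Tendsto (fun k => (Y (f k) * Q - Q * Y (f k)) i j) atTop (𝓝 0) := by
    intro i j
    have hYt : Tendsto (fun k => Y (f k)) atTop (𝓝 Y₀) :=
      tendsto_pi_nhds.2 fun i => tendsto_pi_nhds.2 fun j => hYl i j
    have h3 : Tendsto (fun k => Y (f k) * Q - Q * Y (f k)) atTop (𝓝 (Y₀ * Q - Q * Y₀)) :=
      (hYt.mul tendsto_const_nhds).sub (tendsto_const_nhds.mul hYt)
    rw [h1, sub_self] at h3
    have h4 := ((tendsto_pi_nhds.1 h3) i)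
    exact (tendsto_pi_nhds.1 h4) j
  have h3 : ∀ r : ℝ, 0 < r → Bd (A * Q - Q * A) r := by
    intro r hr
    have h4 : ∀ᶠ k in atTop, ∀ q : ι × ι, ‖(Y (f k) * Q - Q * Y (f k)) q.1 q.2‖ < r := by
      rw [Filter.eventually_all]
      intro q
      have h5 := (h2 q.1 q.2).norm
      rw [norm_zero] at h5
      exact h5.eventually_lt_const hr
    obtain ⟨k, hk⟩ := h4.exists
    refine comm_l_pow hs.1 Q (f k) ?_
    have h6 : A ^ ℓ ^ f k * Q - Q * A ^ ℓ ^ f k = t (f k) • (Y (f k) * Q - Q * Y (f k)) := by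
      rw [hY, add_mul, mul_add, one_mul, mul_one, smul_mul_assoc, mul_smul_comm, smul_sub]
      abel
    rw [h6]
    have h7 : Bd (Y (f k) * Q - Q * Y (f k)) r := fun i j => (hk (i, j)).le
    refine (h7.smul (t (f k))).mono ?_
    rw [ht]
    refine mul_le_mul_of_nonneg_right ?_ hr.le
    exact zpow_le_zpow_right₀ (one_lt_l (ℓ := ℓ)).le (by omega)
  have h4 : A * Q - Q * A = 0 := by
    ext i j
    rw [Matrix.zero_apply, ← norm_le_zero_iff]
    exact le_of_forall_pos_le_add fun r hr => by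
      rw [zero_add]
      exact h3 r hr i j
  have h5 : LinearMap.toMatrix B B (ρ s * P) = LinearMap.toMatrix B B (P * ρ s) := by
    rw [Module.End.mul_eq_comp, Module.End.mul_eq_comp, LinearMap.toMatrix_comp B B B,
      LinearMap.toMatrix_comp B B B]
    exact sub_eq_zero.1 h4
  have h6 := (LinearMap.toMatrix B B).injective h5
  exact (congrArg (fun F : Module.End ℚ_[ℓ] V => F v) h6).symm

end Pool.Agent.X259.Q
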