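import Pool.Agent.X259.Q5

/-!
# One class of codimension two decides: assembly
-/

set_option autoImplicit false

namespace Pool.Agent.X259.Q

open Module TensorProduct Pool.Agent.H204R3.SP Pool.Agent.H204R3.GP Pool.Agent.W516.KC
  Pool.Agent.W516.MTD Pool.Agent.W516.DR Pool.Agent.W516 Pool.Agent.W516.MTM

variable {ℓ : ℕ} [Fact ℓ.Prime] {W T : Type} [AddCommGroup W] [Module ℚ W]
  [FiniteDimensional ℚ W] [AddCommGroup T] [Module ℂ T] (per : W →+ T)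
  {Γ : Type} [Group Γ] (ρ : Representation ℚ_[ℓ] Γ (ℚ_[ℓ] ⊗[ℚ] W)) (χ : Γ →* ℚ_[ℓ])
  (ω₀ : W →ₗ[ℚ] W →ₗ[ℚ] ℚ) (ω : ℚ_[ℓ] ⊗[ℚ] W →ₗ[ℚ_[ℓ]] ℚ_[ℓ] ⊗[ℚ] W →ₗ[ℚ_[ℓ]] ℚ_[ℓ])
  (hper : MTD.IsRationalStructure per) (hR : IsRiemannForm per ω₀)
  (hωω : ∀ u v : W, ω ((1 : ℚ_[ℓ]) ⊗ₜ[ℚ] u) ((1 : ℚ_[ℓ]) ⊗ₜ[ℚ] v) = algebraMap ℚ ℚ_[ℓ] (ω₀ u v))
  (hωρ : ∀ s u v, ω (ρ s u) (ρ s v) = χ s * ω u v)
  (hD : Deligne per ρ χ) (hF : Faltings per ρ) (hss : MTD.Semisimple ρ) (hC : Centres per ρ χ)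

/-- The theorem on the commutant. -/
lemma commutant [TopologicalSpace Γ] [IsTopologicalGroup Γ] [CompactSpace Γ] (hρ : Cont ρ)
    (hχ : Continuous χ) (hF : Faltings per ρ) (P : Module.End ℚ_[ℓ] (ℚ_[ℓ] ⊗[ℚ] W))
    (hP : ∀ X ∈ lieT ρ χ, X * P = P * X) : P ∈ endos ℚ_[ℓ] per := by
  obtain ⟨Δ, hΔ, h⟩ := exists_near ρ χ ((finBasis ℚ W).baseChange ℚ_[ℓ]) hρ hχ
  exact hF P ⟨Δ, hΔ, fun s hs v => comm_of_lieT ρ χ _ (h s hs) P hP v⟩

include hper hR hωω hωρ hD hF hss in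
lemma semi_lieT : Semi (lieT ρ χ) := by
  refine semi_of ρ (fun s X hX => lieT_conj ρ χ s hX) hss fun P hP X hX => ?_
  refine lieT_comm per ρ χ ω₀ ω hper hR hωω hωρ hD hX (hF P ⟨⊤, inferInstance, fun s _ v => ?_⟩)
  exact congrArg (fun f : Module.End ℚ_[ℓ] (ℚ_[ℓ] ⊗[ℚ] W) => f v) (hP s)

lemma s_ros : MTS.S_ROS := by
  intro W T _ _ _ _ _ per n b b' hb ω₀ E h1 h2 h3 h4 P P' hP hsk htr
  exact ros per n b b' hb ω₀ E h1 h2 h3 h4 P P' hP hsk htr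

include hper hR hωω hωρ hD hF hss hC in
lemma trace_nondeg [TopologicalSpace Γ] [IsTopologicalGroup Γ] [CompactSpace Γ] (hρ : Cont ρ)
    (hχ : Continuous χ) : KC2.TraceNondeg (lieT ρ χ) :=
  lieT_trace per ρ χ ω₀ ω hper hR hωω hωρ hD hC (commutant per ρ χ hρ hχ hF)
    (semi_lieT per ρ χ ω₀ ω hper hR hωω hωρ hD hF hss) s_ros

include hper hR hωω hωρ hD hF hC in
/-- The Casimir class decides. -/
lemma casimir_decides [TopologicalSpace Γ] [IsTopologicalGroup Γ] [CompactSpace Γ] (hρ : Cont ρ)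
    (hχ : Continuous χ) (hnt : KC2.TraceNondeg (lieT ρ χ)) :
    (∀ s v, KC2.casimir (lieT ρ χ) hnt ω (fun l => ρ s (v l)) =
      χ s ^ 2 * KC2.casimir (lieT ρ χ) hnt ω v) ∧
    (MTD.IsHodgeCombination per (KC2.casimir (lieT ρ χ) hnt ω) → ∀ (m : ℕ)
      (φ : MultilinearMap ℚ_[ℓ] (fun _ : Fin m × Fin 2 => ℚ_[ℓ] ⊗[ℚ] W) ℚ_[ℓ]),
      IsTateTensor ρ χ m φ → MTD.IsHodgeCombination per φ) := by
  have hnd₀ := riemann_nondeg per ω₀ hper hR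
  have hnd := nondeg_ext ω₀ ω hωω hnd₀
  have hRH := riemann_hodge per ω₀ hR
  have hcomm := commutant per ρ χ hρ hχ hF
  refine ⟨fun s v => ?_, fun hΘ => ?_⟩
  · refine KC2.casimir_inv (lieT ρ χ) hnt ω (g := ρ s) (g' := ρ s⁻¹) ?_ ?_ (hωρ s) ?_ ?_ v
    · rw [← map_mul, inv_mul_cancel, map_one]
    · rw [← map_mul, mul_inv_cancel, map_one]
    · intro X hX
      exact lieT_conj ρ χ s hX
    · intro X hX
      have h1 := lieT_conj ρ χ s⁻¹ hX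
      rwa [inv_inv] at h1
  · intro m φ hφ
    -- the endomorphisms that kill the Hodge classes are in the Lie algebra
    have hmem : ∀ Z₀ : Module.End ℚ W, (∀ (m' : ℕ)
        (ψ : MultilinearMap ℚ (fun _ : Fin m' × Fin 2 => W) ℚ), IsHodgeTensor per ψ →
          Kills Z₀ ψ) → Z₀.baseChange ℚ_[ℓ] ∈ lieT ρ χ := by
      intro Z₀ hk
      have hZs : IsSkew ω (Z₀.baseChange ℚ_[ℓ]) :=
        skew_ext ω₀ ω hωω ((kills_one2 ω₀ Z₀).1 (hk 1 _ (one2_hodge per ω₀ hRH)))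
      have hZk : Kills (Z₀.baseChange ℚ_[ℓ]) (KC2.casimir (lieT ρ χ) hnt ω) :=
        kills_span (fun ψ => IsHodgeTensor per ψ) Z₀ (hk 2) _ ((hc_iff per _).1 hΘ)
      obtain ⟨Y, hY, hYc⟩ := KC2.mem_of_kills_casimir (lieT ρ χ) hnt ω
        (fun X hX Y hY => lieT_bracket ρ χ hX hY) hnd hZs hZk
      have h1 : Z₀.baseChange ℚ_[ℓ] - Y ∈ lieT ρ χ := by
        refine hC _ (hcomm _ hYc) (fun P hP => ?_) (fun m φ hφ => ?_)
        · have e1 := comm_endos per ω₀ hper hR Z₀ hk hP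
          have e2 := lieT_comm per ρ χ ω₀ ω hper hR hωω hωρ hD hY hP
          rw [sub_mul, mul_sub, e1, e2]
        · have h2 := kills_span (fun ψ => IsHodgeTensor per ψ) Z₀ (hk m) φ ((hc_iff per φ).1 hφ)
          have h3 := lieT_hc per ρ χ hD hY φ hφ
          intro v
          have h4 : ∀ j, φ (Function.update v j ((Z₀.baseChange ℚ_[ℓ] - Y) (v j))) =
              φ (Function.update v j (Z₀.baseChange ℚ_[ℓ] (v j))) -
                φ (Function.update v j (Y (v j))) := by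
            intro j
            rw [LinearMap.sub_apply, MultilinearMap.map_update_sub]
          rw [Finset.sum_congr rfl (fun j _ => h4 j), Finset.sum_sub_distrib, h2 v, h3 v, sub_zero]
      have h2 : Z₀.baseChange ℚ_[ℓ] = (Z₀.baseChange ℚ_[ℓ] - Y) + Y := by abel
      rw [h2]
      exact Submodule.add_mem _ h1 hY
    rw [hc_iff]
    refine form_mem_span (fun ψ => IsHodgeTensor per ψ) φ fun lam => ?_
    refine hodge_of_kills per hper _ fun Z₀ hk => ?_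
    exact kills_fcmp lam φ Z₀ (hmem Z₀ hk m φ hφ)

section Span

variable {κ : Type} [Fintype κ] [DecidableEq κ]

/-- The components of a combination of classes in `C` are in `C`. -/
lemma fcmp_mem (C : Submodule ℚ (MultilinearMap ℚ (fun _ : κ => W) ℚ))
    {φ : MultilinearMap ℚ_[ℓ] (fun _ : κ => ℚ_[ℓ] ⊗[ℚ] W) ℚ_[ℓ]}
    (h : φ ∈ Submodule.span ℚ_[ℓ] {φ' : MultilinearMap ℚ_[ℓ] (fun _ : κ => ℚ_[ℓ] ⊗[ℚ] W) ℚ_[ℓ] |
      ∃ ψ ∈ C, ∀ v : κ → W, φ' (fun l => (1 : ℚ_[ℓ]) ⊗ₜ[ℚ] v l) = ((ψ v : ℚ) : ℚ_[ℓ])})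
    (lam : ℚ_[ℓ] →ₗ[ℚ] ℚ) : fcmp lam φ ∈ C := by
  induction h using Submodule.span_induction generalizing lam with
  | mem φ h =>
    obtain ⟨ψ, hψ, h1⟩ := h
    have h2 : fcmp lam φ = lam 1 • ψ := by
      ext v
      rw [fcmp_apply, h1, smul_apply, smul_eq_mul]
      have h3 : ((ψ v : ℚ) : ℚ_[ℓ]) = ψ v • (1 : ℚ_[ℓ]) := by
        rw [Rat.smul_def, mul_one]
      rw [h3, map_smul, smul_eq_mul, mul_comm]
    rw [h2]
    exact C.smul_mem _ hψ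
  | zero =>
    have h2 : fcmp lam (0 : MultilinearMap ℚ_[ℓ] (fun _ : κ => ℚ_[ℓ] ⊗[ℚ] W) ℚ_[ℓ]) = 0 := by
      ext v
      rw [fcmp_apply]
      exact map_zero lam
    rw [h2]
    exact C.zero_mem
  | add a b _ _ ha hb =>
    have h2 : fcmp lam (a + b) = fcmp lam a + fcmp lam b := by
      ext v
      rw [add_apply, fcmp_apply, fcmp_apply, fcmp_apply]
      exact map_add lam _ _
    rw [h2]
    exact C.add_mem (ha lam) (hb lam)
  | smul c a _ ha =>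
    have h2 : fcmp lam (c • a) = fcmp (lam ∘ₗ LinearMap.mulLeft ℚ c) a := by
      ext v
      rw [fcmp_apply, fcmp_apply]
      rfl
    rw [h2]
    exact ha _

/-- A form all of whose components are in `C` is a combination. -/
lemma mem_of_fcmp (C : Submodule ℚ (MultilinearMap ℚ (fun _ : κ => W) ℚ))
    {φ : MultilinearMap ℚ_[ℓ] (fun _ : κ => ℚ_[ℓ] ⊗[ℚ] W) ℚ_[ℓ]}
    (h : ∀ lam : ℚ_[ℓ] →ₗ[ℚ] ℚ, fcmp lam φ ∈ C) :
    φ ∈ Submodule.span ℚ_[ℓ] {φ' : MultilinearMap ℚ_[ℓ] (fun _ : κ => ℚ_[ℓ] ⊗[ℚ] W) ℚ_[ℓ] |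
      ∃ ψ ∈ C, ∀ v : κ → W, φ' (fun l => (1 : ℚ_[ℓ]) ⊗ₜ[ℚ] v l) = ((ψ v : ℚ) : ℚ_[ℓ])} := by
  have h1 := form_mem_span (fun ψ => ψ ∈ C) φ h
  simp only [eq_ratCast] at h1
  exact h1

end Span

/-- Hodge classes form a subspace. -/
def hodgeSub (per : W →+ T) (κ : Type) :
    Submodule ℚ (MultilinearMap ℚ (fun _ : κ => W) ℚ) where
  carrier := {ψ | IsHodgeTensor per ψ}
  zero_mem' := ⟨0, fun _ => by simp, fun _ _ _ => rfl⟩
  add_mem' := by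
    rintro a b ⟨A, hA, hA'⟩ ⟨B, hB, hB'⟩
    refine ⟨A + B, fun v => ?_, fun z hz u => ?_⟩
    · rw [add_apply, add_apply, hA, hB]
      push_cast
      rfl
    · rw [add_apply, add_apply, hA' z hz, hB' z hz]
  smul_mem' := by
    rintro c a ⟨A, hA, hA'⟩
    refine ⟨(c : ℝ) • A, fun v => ?_, fun z hz u => ?_⟩
    · rw [smul_apply, smul_apply, hA, smul_eq_mul, smul_eq_mul]
      push_cast
      rfl
    · rw [smul_apply, smul_apply, hA' z hz]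

end Pool.Agent.X259.Q
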